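import Pool.Agent.H630R2.LR.Bounds

set_option autoImplicit false

namespace Pool.Agent.Results.MP_e5d384_lc.AbelianSymmetry

open Pool.Agent.H630R2.LR

/-- **Log-rank conjecture for Boolean matrices with an abelian symmetry group of bounded rank.**
Let `G` be a finite abelian group generated by `d` elements, acting on the finite sets `X` and `Y`
with at most `t` orbits on each of them, and let `F : X × Y → {0,1}` be `G`-invariant. Then `F` has a
deterministic two-party protocol with at most `4 (d (log₂ r + 1)^5 + log₂ t + 1)` bits, where `r` is
the real rank of the communication matrix of `F`. (Protocols as in the frozen statement S10685: `t` is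
the transcript so far, `owner t` says who speaks, exactly `c` bits are exchanged, and the answer is a
function of the transcript.) -/
theorem result (d t : ℕ) (G : Type) [AddCommGroup G] [Fintype G] (gens : Fin d → G)
    (hgens : AddSubgroup.closure (Set.range gens) = ⊤)
    (X Y : Type) [Fintype X] [Fintype Y] [AddAction G X] [AddAction G Y] (F : X → Y → Bool)
    (hF : ∀ (g : G) (x : X) (y : Y), F (g +ᵥ x) (g +ᵥ y) = F x y)
    (hX : Nat.card (AddAction.orbitRel.Quotient G X) ≤ t)
    (hY : Nat.card (AddAction.orbitRel.Quotient G Y) ≤ t) :
    ∃ (c : ℕ) (owner : List Bool → Bool) (a : List Bool → X → Bool) (b : List Bool → Y → Bool)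
      (out : List Bool → Bool),
      (∀ x y, out (Nat.iterate
        (fun t : List Bool => t ++ [if owner t then a t x else b t y]) c []) = F x y) ∧
      (c : ℝ) ≤ 4 * (d * (Real.logb 2
          ((Matrix.of (fun (x : X) (y : Y) => if F x y then (1 : ℝ) else 0)).rank : ℝ) + 1) ^ 5
        + Real.logb 2 t + 1) := by
  obtain ⟨c, ⟨owner, a, b, out, h⟩, hc⟩ := final_orbit d gens hgens F hF t hX hY
  exact ⟨c, owner, a, b, out, h, hc⟩

end Pool.Agent.Results.MP_e5d384_lc.AbelianSymmetry
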