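import Pool.Agent.H161R4.Final

/-!
# The log-rank conjecture for functions of constant `F_2`-degree in one argument
-/

namespace Pool.Agent.Results.MP_e5d384_lc.ConstantDegree

open MvPolynomial

/-- the bit `F x y` as an element of `F_2` -/
def toF2 (b : Bool) : ZMod 2 := if b then 1 else 0

/-- Any two columns `F(·, y)`, `F(·, y')` of `F`, as functions on `F_2^n`, differ by a polynomial
over `F_2` of degree at most `d`. (This holds in particular if every column is such a polynomial;
more generally if `F(x, y) = g(x) + P_y(x)` with `g` arbitrary and `deg P_y ≤ d`.) -/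
def ColumnDegree {n : ℕ} {Y : Type} (F : (Fin n → ZMod 2) → Y → Bool) (d : ℕ) : Prop :=
  ∀ y y', ∃ P : MvPolynomial (Fin n) (ZMod 2), P.totalDegree ≤ d ∧
    ∀ x, toF2 (F x y) + toF2 (F x y') = eval x P

/-- `F` has a deterministic two-party protocol with at most `(180 * 2^d * (log₂ r + 1)) ^ (2^d)` bits,
where `r` is the real rank of its communication matrix. (Protocols exactly as in the frozen
statement S10685: `t` is the transcript so far, `owner t` says who speaks, `c` bits are exchanged,
and the answer is a function of the transcript.) -/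
def LogRank {X Y : Type} [Fintype X] [Fintype Y] (F : X → Y → Bool) (d : ℕ) : Prop :=
  ∃ (c : ℕ) (owner : List Bool → Bool) (a : List Bool → X → Bool)
      (b : List Bool → Y → Bool) (out : List Bool → Bool),
      (∀ x y, out (Nat.iterate
        (fun t : List Bool => t ++ [if owner t then a t x else b t y]) c []) = F x y) ∧
      (c : ℝ) ≤ (180 * 2 ^ d * (Real.logb 2
          ((Matrix.of (fun (x : X) (y : Y) => if F x y then (1 : ℝ) else 0)).rank : ℝ) + 1)) ^ 2 ^ d

/-- **The log-rank conjecture for functions of constant `F_2`-degree in one argument.**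
For every `d ≥ 0`:
(1) if any two columns of `F : F_2^n × Y → {0,1}` (`Y` any finite set) differ by a polynomial of
degree at most `d + 1`, then `D(F) ≤ (180 * 2^d * (log₂ rank F + 1)) ^ (2^d)`;
(2) the same for rows;
(3) the same for every `F : F_2^n × F_2^n' → {0,1}` that is a polynomial over `F_2` of total degree
at most `d + 2`. -/
theorem result (d : ℕ) :
    (∀ (n : ℕ) (Y : Type) [Fintype Y] (F : (Fin n → ZMod 2) → Y → Bool),
      ColumnDegree F (d + 1) → LogRank F d) ∧
    (∀ (n : ℕ) (X : Type) [Fintype X] (F : X → (Fin n → ZMod 2) → Bool),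
      ColumnDegree (fun y x => F x y) (d + 1) → LogRank F d) ∧
    (∀ (n n' : ℕ) (F : (Fin n → ZMod 2) → (Fin n' → ZMod 2) → Bool)
      (P : MvPolynomial (Fin n ⊕ Fin n') (ZMod 2)), P.totalDegree ≤ d + 2 →
      (∀ x y, toF2 (F x y) = eval (Sum.elim x y) P) → LogRank F d) := by
  have main : ∀ (n : ℕ) (Y : Type) [Fintype Y] (F : (Fin n → ZMod 2) → Y → Bool),
      (∀ y y', Pool.Agent.H161R4.Pol (d + 1) (fun x => toF2 (F x y) + toF2 (F x y'))) →
      LogRank F d := by
    intro n Y _ F hF
    obtain ⟨c, ⟨owner, a, b, out, h⟩, hc⟩ := Pool.Agent.H161R4.final d F hF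
    exact ⟨c, owner, a, b, out, h, hc⟩
  have h1 : ∀ (n : ℕ) (Y : Type) [Fintype Y] (F : (Fin n → ZMod 2) → Y → Bool),
      ColumnDegree F (d + 1) → LogRank F d := by
    intro n Y _ F hF
    refine main n Y F fun y y' => ?_
    obtain ⟨P, hP, h⟩ := hF y y'
    have := Pool.Agent.H161R4.pol_eval (d + 1) P hP
    have e : (fun x => toF2 (F x y) + toF2 (F x y')) = fun x => eval x P := funext h
    rw [e]
    exact this
  refine ⟨h1, ?_, ?_⟩
  · intro n X _ F hF
    obtain ⟨c, owner, a, b, out, h, hc⟩ := h1 n X (fun y x => F x y) hF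
    obtain ⟨owner', a', b', out', h'⟩ :=
      Pool.Agent.H161R4.Prot.swap (F := fun y x => F x y) ⟨owner, a, b, out, h⟩
    refine ⟨c, owner', a', b', out', h', ?_⟩
    have e : (Matrix.of (fun (x : X) (y : Fin n → ZMod 2) => if F x y then (1 : ℝ) else 0)).rank =
        (Matrix.of (fun (y : Fin n → ZMod 2) (x : X) => if F x y then (1 : ℝ) else 0)).rank := by
      rw [← Matrix.rank_transpose]
      rfl
    rw [e]
    exact hc
  · intro n n' F P hP hF
    refine main n _ F fun y y' => ?_
    have := Pool.Agent.H161R4.pol_slice_diff P hP y y'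
    have e : (fun x => toF2 (F x y) + toF2 (F x y')) =
        fun x => eval (Sum.elim x y) P + eval (Sum.elim x y') P := by
      funext x
      rw [hF, hF]
    rw [e]
    exact this

end Pool.Agent.Results.MP_e5d384_lc.ConstantDegree
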