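import Pool.Agent.H630R2.LR.Bounds

set_option autoImplicit false

namespace Pool.Agent.Results.MP_e5d384_lc.HankelToeplitz

open Pool.Agent.H630R2.LR

/-- **Log-rank conjecture for Boolean Hankel and Toeplitz matrices.** Every `F : [m] × [n] → {0,1}`
of the form `F(i,j) = f(i+j)` or `F(i,j) = f(i-j)` has a deterministic two-party protocol with at most
`11 (log₂ r + 1)^5` bits, where `r` is the real rank of the matrix. (Protocols as in the frozen
statement S10685.) -/
theorem result (m n : ℕ) (F : Fin m → Fin n → Bool)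
    (hF : (∃ f : ℤ → Bool, ∀ i j, F i j = f ((i : ℤ) + (j : ℤ))) ∨
      (∃ f : ℤ → Bool, ∀ i j, F i j = f ((i : ℤ) - (j : ℤ)))) :
    ∃ (c : ℕ) (owner : List Bool → Bool) (a : List Bool → Fin m → Bool)
      (b : List Bool → Fin n → Bool) (out : List Bool → Bool),
      (∀ x y, out (Nat.iterate
        (fun t : List Bool => t ++ [if owner t then a t x else b t y]) c []) = F x y) ∧
      (c : ℝ) ≤ 11 * (Real.logb 2
          ((Matrix.of (fun (x : Fin m) (y : Fin n) => if F x y then (1 : ℝ) else 0)).rank : ℝ)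
        + 1) ^ 5 := by
  obtain ⟨c, ⟨owner, a, b, out, h⟩, hc⟩ := final_hankel F hF
  exact ⟨c, owner, a, b, out, h, hc⟩

end Pool.Agent.Results.MP_e5d384_lc.HankelToeplitz
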