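import Pool.Agent.H238R2.LR.Main

set_option autoImplicit false

namespace Pool.Agent.Results.MP_e5d384_lc.HereditaryClasses

open Pool.Agent.H238R2.LR

/-- `LogRank F C`: the Boolean matrix `F` has a deterministic two-party protocol with at most
`C * (log₂ r + 1)²` bits, where `r` is its real rank. (Protocols exactly as in the frozen statement
S10685.) -/
def LogRank {X Y : Type} [Fintype X] [Fintype Y] (F : X → Y → Bool) (C : ℝ) : Prop :=
  ∃ (c : ℕ) (owner : List Bool → Bool) (a : List Bool → X → Bool)
      (b : List Bool → Y → Bool) (out : List Bool → Bool),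
      (∀ x y, out (Nat.iterate
        (fun t : List Bool => t ++ [if owner t then a t x else b t y]) c []) = F x y) ∧
      (c : ℝ) ≤ C * (Real.logb 2
          ((Matrix.of (fun (x : X) (y : Y) => if F x y then (1 : ℝ) else 0)).rank : ℝ) + 1) ^ 2

/-- **The log-rank conjecture, with exponent 2, for matrices of bounded VC dimension and for every
proper hereditary class of Boolean matrices.**
(1) If the rows or the columns of `F` have VC dimension `≤ d` then `D(F) ≤ 109 (d+1) (log₂ r + 1)²`.
(2) It is enough that every submatrix `A × B` contains a submatrix `A₁ × B₁` of relative size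
`≥ 2^{-d}` whose rows or columns have VC dimension `≤ d`.
(3) If `F` has no submatrix equal to a given `k × l` Boolean matrix `H`, then
`D(F) ≤ 109 (min (l + ⌈log₂ k⌉) (k + ⌈log₂ l⌉) + 1) (log₂ r + 1)²`. -/
theorem result (X Y : Type) [Fintype X] [Fintype Y] (F : X → Y → Bool) :
    (∀ d : ℕ, (RowVC F Finset.univ Finset.univ d ∨
        RowVC (fun y x => F x y) Finset.univ Finset.univ d) → LogRank F (109 * (d + 1))) ∧
    (∀ d : ℕ, LocVC F d → LogRank F (109 * (d + 1))) ∧
    (∀ (k l : ℕ) (H : Fin k → Fin l → Bool), ¬ Contains F H →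
      LogRank F (109 * ((min (l + Nat.clog 2 k) (k + Nat.clog 2 l) : ℕ) + 1))) := by
  classical
  have main : ∀ d : ℕ, LocVC F d → LogRank F (109 * (d + 1)) := by
    intro d hd
    obtain ⟨c, ⟨owner, a, b, out, h⟩, hc⟩ := final F d hd
    exact ⟨c, owner, a, b, out, h, hc⟩
  refine ⟨fun d hd => main d (locVC_of_rowVC F d hd), main, fun k l H hH => main _ ?_⟩
  rcases le_total (l + Nat.clog 2 k) (k + Nat.clog 2 l) with h | h
  · rw [min_eq_left h]
    exact locVC_of_not_contains F H hH
  · rw [min_eq_right h]
    refine locVC_of_rowVC F _ (Or.inr ?_)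
    refine rowVC_of_not_contains (fun y x => F x y) (fun j i => H i j) ?_ _ _
    rintro ⟨f, g, hf, hg, hfg⟩
    exact hH ⟨g, f, hg, hf, fun i j => hfg j i⟩

end Pool.Agent.Results.MP_e5d384_lc.HereditaryClasses
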